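import Pool.Agent.Helper75.PX.Stmts

set_option autoImplicit false

universe u

open Module TensorProduct Cardinal

namespace Pool.Agent.Helper75.PX

open IntermediateField algebraAdjoinAdjoin in
theorem T5_trdeg (F Om : Type u) [Field F] [Field Om] [Algebra F Om] {n : ℕ} (x : Fin n → Om) :
    Algebra.trdeg F (IntermediateField.adjoin F (Set.range x)) ≤ n := by
  have halg : Algebra.IsAlgebraic (Algebra.adjoin F (Set.range x))
      (IntermediateField.adjoin F (Set.range x)) := by
    exact IsLocalization.isAlgebraic _ (nonZeroDivisors (Algebra.adjoin F (Set.range x)))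
  have h1 := trdeg_add_eq F (Algebra.adjoin F (Set.range x))
    (A := IntermediateField.adjoin F (Set.range x))
  have h2 : Algebra.trdeg (Algebra.adjoin F (Set.range x))
      (IntermediateField.adjoin F (Set.range x)) = 0 := trdeg_eq_zero
  have h3 : Algebra.trdeg F (Algebra.adjoin F (Set.range x)) ≤ n := by
    let f : MvPolynomial (Fin n) F →ₐ[F] (Algebra.adjoin F (Set.range x)) :=
        (MvPolynomial.aeval (R := F) (fun i : Fin n => (⟨x i, Algebra.subset_adjoin ⟨i, rfl⟩⟩ :
          (Algebra.adjoin F (Set.range x)))))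
    have hs : Function.Surjective f := by
      rintro ⟨y, hy⟩
      rw [Algebra.adjoin_range_eq_range_aeval] at hy
      obtain ⟨P, rfl⟩ := hy
      refine ⟨P, Subtype.ext ?_⟩
      have : (Algebra.adjoin F (Set.range x)).val.comp f = MvPolynomial.aeval x := by
        apply MvPolynomial.algHom_ext
        intro i
        simp [f]
      exact DFunLike.congr_fun this P
    have := lift_trdeg_le_of_surjective f hs
    rw [MvPolynomial.trdeg_of_isDomain] at this
    simpa using this
  rw [← h1, h2, add_zero]
  exact h3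


/-- the algebra: everything lies in the field generated by five elements -/
theorem T5_mem {F Om : Type u} [Field F] [Field Om] [Algebra F Om]
    (M : IntermediateField F Om) (A B p r : Om) (v : Fin 4 → Om) (h2 : (2 : Om) ≠ 0)
    (hA : A ≠ 0) (hB : B ≠ 0) (hp : p ^ 2 - B ^ 2 ≠ 0) (hr : r ^ 2 - A ^ 2 ≠ 0)
    (hrel : Rel (A ^ 2) (B ^ 2) p r v)
    (m1 : p + B ∈ M) (m2 : p - B ∈ M) (m3 : r + A ∈ M) (m4 : r - A ∈ M)
    (m5 : v 0 + v 1 * A + v 2 * B + v 3 * (A * B) ∈ M) :
    A ∈ M ∧ B ∈ M ∧ p ∈ M ∧ r ∈ M ∧ ∀ k, v k ∈ M := by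
  obtain ⟨R1, R2, R3, R4⟩ := hrel
  have n2 : (2 : Om) ∈ M := by exact_mod_cast natCast_mem M 2
  have n4 : (4 : Om) ∈ M := by exact_mod_cast natCast_mem M 4
  have h4 : (4 : Om) ≠ 0 := by
    have : (4 : Om) = 2 * 2 := by norm_num
    rw [this]; exact mul_ne_zero h2 h2
  have hBM : B ∈ M := by
    have : B = ((p + B) - (p - B)) / 2 := by field_simp; ring
    rw [this]; exact div_mem (sub_mem m1 m2) n2
  have hpM : p ∈ M := by
    have : p = ((p + B) + (p - B)) / 2 := by field_simp; ring
    rw [this]; exact div_mem (add_mem m1 m2) n2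
  have hAM : A ∈ M := by
    have : A = ((r + A) - (r - A)) / 2 := by field_simp; ring
    rw [this]; exact div_mem (sub_mem m3 m4) n2
  have hrM : r ∈ M := by
    have : r = ((r + A) + (r - A)) / 2 := by field_simp; ring
    rw [this]; exact div_mem (add_mem m3 m4) n2
  have p1 : p + B ≠ 0 := by
    intro h; apply hp; linear_combination (p - B) * h
  have p2 : p - B ≠ 0 := by
    intro h; apply hp; linear_combination (p + B) * h
  have r1 : r + A ≠ 0 := by
    intro h; apply hr; linear_combination (r - A) * h
  have r2 : r - A ≠ 0 := by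
    intro h; apply hr; linear_combination (r + A) * h
  set U1 := v 0 + v 1 * A + v 2 * B + v 3 * (A * B) with hU1
  set U2 := v 0 - v 1 * A + v 2 * B - v 3 * (A * B) with hU2
  set U3 := v 0 + v 1 * A - v 2 * B - v 3 * (A * B) with hU3
  set U4 := v 0 - v 1 * A - v 2 * B + v 3 * (A * B) with hU4
  have E1 : U1 * U2 * (p - B) = p + B := by
    rw [hU1, hU2]; linear_combination R1 + B * R2
  have E2 : U3 * U4 * (p + B) = p - B := by
    rw [hU3, hU4]; linear_combination R1 - B * R2
  have E3 : U1 * U3 * (r + A) = r - A := by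
    rw [hU1, hU3]; linear_combination R3 + A * R4
  have nU1 : U1 ≠ 0 := by
    intro h; rw [h] at E1; apply p1; rw [← E1]; ring
  have nU3 : U3 ≠ 0 := by
    intro h; rw [h] at E2; apply p2; rw [← E2]; ring
  have M2 : U2 ∈ M := by
    have : U2 = (p + B) / (U1 * (p - B)) := by
      field_simp; linear_combination E1
    rw [this]; exact div_mem m1 (mul_mem m5 m2)
  have M3 : U3 ∈ M := by
    have : U3 = (r - A) / (U1 * (r + A)) := by
      field_simp; linear_combination E3
    rw [this]; exact div_mem m4 (mul_mem m5 m3)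
  have M4 : U4 ∈ M := by
    have : U4 = (p - B) / (U3 * (p + B)) := by
      field_simp; linear_combination E2
    rw [this]; exact div_mem m2 (mul_mem M3 m1)
  refine ⟨hAM, hBM, hpM, hrM, ?_⟩
  intro k
  fin_cases k
  · have : v 0 = (U1 + U2 + U3 + U4) / 4 := by
      field_simp; rw [hU1, hU2, hU3, hU4]; ring
    show v 0 ∈ M
    rw [this]
    exact div_mem (add_mem (add_mem (add_mem m5 M2) M3) M4) n4
  · have : v 1 = (U1 - U2 + U3 - U4) / (4 * A) := by
      field_simp; rw [hU1, hU2, hU3, hU4]; ring
    show v 1 ∈ M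
    rw [this]
    exact div_mem (sub_mem (add_mem (sub_mem m5 M2) M3) M4) (mul_mem n4 hAM)
  · have : v 2 = (U1 + U2 - U3 - U4) / (4 * B) := by
      field_simp; rw [hU1, hU2, hU3, hU4]; ring
    show v 2 ∈ M
    rw [this]
    exact div_mem (sub_mem (sub_mem (add_mem m5 M2) M3) M4) (mul_mem n4 hBM)
  · have : v 3 = (U1 - U2 - U3 + U4) / (4 * (A * B)) := by
      field_simp; rw [hU1, hU2, hU3, hU4]; ring
    show v 3 ∈ M
    rw [this]
    exact div_mem (add_mem (sub_mem (sub_mem m5 M2) M3) M4) (mul_mem n4 (mul_mem hAM hBM))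

theorem st_T5 : ST_T5.{u} := by
  intro F K _ _ _ a b p r v h2 ha hb hp hr hrel
  let Om := AlgebraicClosure K
  have e2 : algebraMap K Om 2 = 2 := map_ofNat _ 2
  obtain ⟨A, hA⟩ := IsAlgClosed.exists_pow_nat_eq (algebraMap K Om a) (n := 2) (by norm_num)
  obtain ⟨B, hB⟩ := IsAlgClosed.exists_pow_nat_eq (algebraMap K Om b) (n := 2) (by norm_num)
  have inj : Function.Injective (algebraMap K Om) := (algebraMap K Om).injective
  let x : Fin 5 → Om := ![algebraMap K Om p + B, algebraMap K Om p - B, algebraMap K Om r + A,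
    algebraMap K Om r - A, algebraMap K Om (v 0) + algebraMap K Om (v 1) * A +
      algebraMap K Om (v 2) * B + algebraMap K Om (v 3) * (A * B)]
  let M : IntermediateField F Om := IntermediateField.adjoin F (Set.range x)
  have hx : ∀ i, x i ∈ M := fun i => IntermediateField.subset_adjoin F _ ⟨i, rfl⟩
  have key := T5_mem M A B (algebraMap K Om p) (algebraMap K Om r)
    (fun k => algebraMap K Om (v k)) (by
      intro h
      apply h2
      apply inj
      rw [map_zero, ← h]
      exact map_ofNat _ 2) (by
      rintro rfl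
      apply ha
      apply inj
      rw [map_zero, ← hA]; ring) (by
      rintro rfl
      apply hb
      apply inj
      rw [map_zero, ← hB]; ring) (by
      rw [hB, ← map_pow, ← map_sub]
      intro h
      exact hp (inj (by rw [h, map_zero]))) (by
      rw [hA, ← map_pow, ← map_sub]
      intro h
      exact hr (inj (by rw [h, map_zero]))) (by
      obtain ⟨R1, R2, R3, R4⟩ := hrel
      rw [hA, hB]
      refine ⟨?_, ?_, ?_, ?_⟩
      · have := congrArg (algebraMap K Om) R1
        simpa [e2] using this
      · have := congrArg (algebraMap K Om) R2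
        simpa [e2] using this
      · have := congrArg (algebraMap K Om) R3
        simpa [e2] using this
      · have := congrArg (algebraMap K Om) R4
        simpa [e2] using this) (hx 0) (hx 1) (hx 2) (hx 3) (hx 4)
  obtain ⟨k1, k2, k3, k4, k5⟩ := key
  have hle : (IntermediateField.adjoin F (({a, b, p, r} : Set K) ∪ Set.range v)).map
      (IsScalarTower.toAlgHom F K Om) ≤ M := by
    rw [IntermediateField.adjoin_map, IntermediateField.adjoin_le_iff]
    rintro _ ⟨y, hy, rfl⟩
    rcases hy with hy | ⟨k, rfl⟩
    · rcases hy with rfl | rfl | rfl | rfl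
      · show algebraMap K Om _ ∈ M
        rw [← hA]; exact pow_mem k1 2
      · show algebraMap K Om _ ∈ M
        rw [← hB]; exact pow_mem k2 2
      · exact k3
      · exact k4
    · exact k5 k
  have f : IntermediateField.adjoin F (({a, b, p, r} : Set K) ∪ Set.range v) →ₐ[F] M :=
    (IntermediateField.inclusion hle).comp
      (IntermediateField.equivMap _ (IsScalarTower.toAlgHom F K Om)).toAlgHom
  refine (trdeg_le_of_injective f f.toRingHom.injective).trans ?_
  exact_mod_cast T5_trdeg F Om x

end Pool.Agent.Helper75.PX
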